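import Pool.Agent.TH570.Mu.Syl
import Pool.Agent.TH877.LC.Main

set_option autoImplicit false

open NumberField IntermediateField Pool.Agent.TH965.St
open Pool.Agent.TH877.LC (primorial_eq padic_primorial no_root finrank_y real_places_le exp_ge)

namespace Pool.Agent.TH570.Mu

theorem real_eq (F : IntermediateField ℚ Qb) [NumberField F] :
    realPlaces F = InfinitePlace.nrRealPlaces F := by
  classical
  unfold realPlaces
  rw [Nat.card_eq_fintype_card]

theorem complex_eq (F : IntermediateField ℚ Qb) [NumberField F] :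
    complexPlaces F = InfinitePlace.nrComplexPlaces F := by
  classical
  unfold complexPlaces
  rw [Nat.card_eq_fintype_card]

/-- every extension of `k` of degree prime to `p` is contained in one with few real places in
which all small prime numbers are highly ramified -/
theorem enlarge (p : ℕ) (hp : p.Prime) (N m : ℕ) (k K : IntermediateField ℚ Qb)
    (hK : NumberField K) (hkK : k ≤ K) (hpK : ¬ p ∣ relDegree k K) :
    ∃ F : IntermediateField ℚ Qb, NumberField F ∧ K ≤ F ∧ ¬ p ∣ relDegree k F ∧
      N ≤ complexPlaces F ∧ realPlaces F ^ m ≤ Module.finrank ℚ F ∧ HighlyRamified m F := by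
  classical
  set n : ℕ := Module.finrank ℚ K with hn
  obtain ⟨l, hl, hll⟩ := Nat.exists_infinite_primes (n ^ m + n + 2 * N + 3 + p)
  have hFl : Fact l.Prime := ⟨hll⟩
  have hfK : FiniteDimensional ℚ K := (nf_iff K).1 hK
  have hn0 : 0 < n := Module.finrank_pos
  have hpow : n ^ m ≤ l := by omega
  have hnl : n < l := by omega
  have hl3 : 3 ≤ l := by omega
  have hnl2 : l ≤ n * l := Nat.le_mul_of_pos_left _ hn0
  set a : ℕ := primorial (n * l) with hadef
  have ha0 : a ≠ 0 := (primorial_pos _).ne'
  have ha : ∀ b : ℚ, b ^ l ≠ (a : ℚ) :=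
    no_root hll ha0 (padic_primorial (by omega))
  obtain ⟨y, hy⟩ : ∃ y : Qb, y ^ l = (a : Qb) := IsAlgClosed.exists_pow_nat_eq (a : Qb) hll.pos
  have hFy : NumberField (IntermediateField.adjoin ℚ {y}) := nf_adjoin y
  have hK1 : NumberField (K ⊔ IntermediateField.adjoin ℚ {y} : IntermediateField ℚ Qb) :=
    nf_sup hK hFy
  have hodd : Odd l := hll.odd_of_ne_two (by omega)
  have fy := finrank_y hll ha hy
  have f1 : FiniteDimensional ℚ (K ⊔ IntermediateField.adjoin ℚ {y} : IntermediateField ℚ Qb) :=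
    (nf_iff _).1 hK1
  have ffy : FiniteDimensional ℚ (IntermediateField.adjoin ℚ {y}) := (nf_iff _).1 hFy
  -- the degree
  have d1 : Module.finrank ℚ (K ⊔ IntermediateField.adjoin ℚ {y} : IntermediateField ℚ Qb)
      ≤ n * l := by
    have := IntermediateField.finrank_sup_le K (IntermediateField.adjoin ℚ {y})
    rwa [fy] at this
  have d0 : Module.finrank ℚ (K ⊔ IntermediateField.adjoin ℚ {y} : IntermediateField ℚ Qb)
      = n * l := by
    have e1 : n ∣ Module.finrank ℚ
        (K ⊔ IntermediateField.adjoin ℚ {y} : IntermediateField ℚ Qb) :=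
      IntermediateField.finrank_dvd_of_le_right
        (le_sup_left : K ≤ K ⊔ IntermediateField.adjoin ℚ {y})
    have e2 : l ∣ Module.finrank ℚ
        (K ⊔ IntermediateField.adjoin ℚ {y} : IntermediateField ℚ Qb) := by
      have := IntermediateField.finrank_dvd_of_le_right
        (le_sup_right : IntermediateField.adjoin ℚ {y} ≤ K ⊔ IntermediateField.adjoin ℚ {y})
      rwa [fy] at this
    have e3 : Nat.Coprime n l :=
      (Nat.Coprime.symm ((Nat.Prime.coprime_iff_not_dvd hll).2
        fun h => absurd (Nat.le_of_dvd hn0 h) (by omega)))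
    have e4 := Nat.Coprime.mul_dvd_of_dvd_of_dvd e3 e1 e2
    exact le_antisymm d1 (Nat.le_of_dvd Module.finrank_pos e4)
  have hdp : ¬ p ∣ relDegree k
      (K ⊔ IntermediateField.adjoin ℚ {y} : IntermediateField ℚ Qb) := by
    have e5 : relDegree k (K ⊔ IntermediateField.adjoin ℚ {y} : IntermediateField ℚ Qb) =
        relDegree k K * l := by
      unfold relDegree
      rw [d0, mul_comm n l, Nat.mul_div_assoc _ (IntermediateField.finrank_dvd_of_le_right hkK),
        mul_comm]
    rw [e5]
    intro h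
    rcases (Nat.Prime.dvd_mul hp).1 h with h1 | h1
    · exact hpK h1
    · have := (Nat.prime_dvd_prime_iff_eq hp hll).1 h1
      omega
  have s1 := InfinitePlace.card_add_two_mul_card_eq_rank
    (K ⊔ IntermediateField.adjoin ℚ {y} : IntermediateField ℚ Qb)
  have t1 := real_places_le hodd K hy
  have r1 : N ≤ InfinitePlace.nrComplexPlaces
      (K ⊔ IntermediateField.adjoin ℚ {y} : IntermediateField ℚ Qb) := by
    change InfinitePlace.nrRealPlaces _ + 2 * InfinitePlace.nrComplexPlaces _ = _ at s1
    omega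
  have u1 : InfinitePlace.nrRealPlaces
      (K ⊔ IntermediateField.adjoin ℚ {y} : IntermediateField ℚ Qb) ^ m ≤
      Module.finrank ℚ (K ⊔ IntermediateField.adjoin ℚ {y} : IntermediateField ℚ Qb) := by
    rw [d0]
    exact (Nat.pow_le_pow_left t1 m).trans (hpow.trans hnl2)
  have L1 : HighlyRamified m (K ⊔ IntermediateField.adjoin ℚ {y} : IntermediateField ℚ Qb) := by
    intro q hq hqd P hP e he h1 h2
    rw [d0] at hqd ⊢
    obtain ⟨c, hc1, hc2⟩ := primorial_eq hq hqd
    have hyF : y ∈ (K ⊔ IntermediateField.adjoin ℚ {y} : IntermediateField ℚ Qb) :=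
      (le_sup_right : IntermediateField.adjoin ℚ {y} ≤ _)
        (IntermediateField.mem_adjoin_simple_self ℚ y)
    have hyp' : (⟨y, hyF⟩ : (K ⊔ IntermediateField.adjoin ℚ {y} : IntermediateField ℚ Qb)) ^ l
        = (a : (K ⊔ IntermediateField.adjoin ℚ {y} : IntermediateField ℚ Qb)) :=
      Subtype.ext (by simpa using hy)
    let y1 : 𝓞 (K ⊔ IntermediateField.adjoin ℚ {y} : IntermediateField ℚ Qb) :=
      ⟨⟨y, hyF⟩, IsIntegral.of_pow hll.pos (by
        rw [hyp']
        exact isIntegral_algebraMap (R := ℤ) (x := (a : ℤ)) |> fun h => by simpa using h)⟩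
    have hy1 : y1 ^ l = (q : 𝓞 (K ⊔ IntermediateField.adjoin ℚ {y} :
        IntermediateField ℚ Qb)) * (c : 𝓞 (K ⊔ IntermediateField.adjoin ℚ {y} :
        IntermediateField ℚ Qb)) := by
      apply RingOfIntegers.coe_injective
      rw [map_pow, map_mul, map_natCast, map_natCast]
      show (⟨y, hyF⟩ : (K ⊔ IntermediateField.adjoin ℚ {y} : IntermediateField ℚ Qb)) ^ l = _
      rw [hyp', hadef, hc1, Nat.cast_mul]
    have hle : l ≤ e := exp_ge hy1 hc2 hP he h1 h2
    calc (n * l) ^ m = n ^ m * l ^ m := mul_pow _ _ _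
      _ ≤ l * l ^ m := Nat.mul_le_mul_right _ hpow
      _ = l ^ (m + 1) := by rw [pow_succ, mul_comm]
      _ ≤ e ^ (m + 1) := Nat.pow_le_pow_left hle _
  exact ⟨_, hK1, le_sup_left, hdp, by rw [complex_eq]; exact r1, by rw [real_eq]; exact u1, L1⟩

end Pool.Agent.TH570.Mu
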