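import Mathlib

/-!
# Classes of number fields closed under subfields and Galois extensions of `p`-power degree
-/

set_option autoImplicit false

open NumberField

namespace Pool.Agent.TH570.Mu

/-- `F'/F` is a Galois extension of `p`-power degree: `F' ⊇ F` is mapped to itself by all
automorphisms of the algebraic closure over `F`, and `[F':ℚ] = p^e [F:ℚ]` for some `e`. -/
def IsPExtension (p : ℕ) (F F' : IntermediateField ℚ (AlgebraicClosure ℚ)) : Prop :=
  F ≤ F' ∧ (∀ g ∈ F.fixingSubgroup, F'.map (g : Gal(AlgebraicClosure ℚ/ℚ)).toAlgHom = F') ∧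
    ∃ e : ℕ, Module.finrank ℚ F' = p ^ e * Module.finrank ℚ F

/-- A class of number fields which contains with a number field all its subfields and, if it
contains `k`, all its Galois extensions of `p`-power degree. -/
structure IsClosedClass (p : ℕ) (k : IntermediateField ℚ (AlgebraicClosure ℚ))
    (C : IntermediateField ℚ (AlgebraicClosure ℚ) → Prop) : Prop where
  /-- closed under subfields -/
  sub : ∀ F F' : IntermediateField ℚ (AlgebraicClosure ℚ), NumberField F' → F ≤ F' → C F' → C F
  /-- closed under Galois extensions of `p`-power degree -/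
  ext : ∀ F F' : IntermediateField ℚ (AlgebraicClosure ℚ), NumberField F' → k ≤ F →
    IsPExtension p F F' → C F → C F'

/-- A class of number fields which contains with a number field all its subfields and, if it
contains `k`, all its extensions of `p`-power degree, Galois or not. -/
structure IsStronglyClosedClass (p : ℕ) (k : IntermediateField ℚ (AlgebraicClosure ℚ))
    (C : IntermediateField ℚ (AlgebraicClosure ℚ) → Prop) : Prop where
  /-- closed under subfields -/
  sub : ∀ F F' : IntermediateField ℚ (AlgebraicClosure ℚ), NumberField F' → F ≤ F' → C F' → C F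
  /-- closed under extensions of `p`-power degree -/
  ext : ∀ F F' : IntermediateField ℚ (AlgebraicClosure ℚ), NumberField F' → k ≤ F → F ≤ F' →
    (∃ e : ℕ, Module.finrank ℚ F' = p ^ e * Module.finrank ℚ F) → C F → C F'

/-- The degree `[F:k]` of a number field `F` over its subfield `k`. -/
noncomputable def relDegree (k F : IntermediateField ℚ (AlgebraicClosure ℚ)) : ℕ :=
  Module.finrank ℚ F / Module.finrank ℚ k

/-- The number of real places of `F`. -/
noncomputable def realPlaces (F : IntermediateField ℚ (AlgebraicClosure ℚ)) : ℕ :=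
  Nat.card {w : InfinitePlace F // w.IsReal}

/-- The number of complex places of `F`. -/
noncomputable def complexPlaces (F : IntermediateField ℚ (AlgebraicClosure ℚ)) : ℕ :=
  Nat.card {w : InfinitePlace F // w.IsComplex}

/-- Every prime number `q ≤ [F:ℚ]` is highly ramified in `F`: the ramification index `e` over `ℚ`
of every prime ideal `P` above `q` is at least `[F:ℚ]^(m/(m+1))`. -/
def HighlyRamified (m : ℕ) (F : IntermediateField ℚ (AlgebraicClosure ℚ)) : Prop :=
  ∀ q : ℕ, q.Prime → q ≤ Module.finrank ℚ F → ∀ P : Ideal (𝓞 F), P.IsPrime → ∀ e : ℕ, 1 ≤ e →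
    (q : 𝓞 F) ∈ P ^ e → (q : 𝓞 F) ∉ P ^ (e + 1) → Module.finrank ℚ F ^ m ≤ e ^ (m + 1)

end Pool.Agent.TH570.Mu
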