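import Pool.Agent.TH570.Mu.Big

set_option autoImplicit false

open NumberField IntermediateField Pool.Agent.TH965.St

namespace Pool.Agent.TH570.Mu

theorem nf_of_le {F F' : IntermediateField ℚ Qb} (h : F ≤ F') (h' : NumberField F') :
    NumberField F := by
  have : FiniteDimensional ℚ F' := (nf_iff F').1 h'
  exact (nf_iff F).2 (fd_of h)

/-- a normal number field above a given one -/
theorem exists_normal (F : IntermediateField ℚ Qb) (hF : NumberField F) :
    ∃ K : IntermediateField ℚ Qb, F ≤ K ∧ FiniteDimensional ℚ K ∧ Normal ℚ K := by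
  have : FiniteDimensional ℚ F := (nf_iff F).1 hF
  refine ⟨normalClosure ℚ F Qb, le_normalClosure F, ?_, ?_⟩
  · infer_instance
  · exact (inferInstance : @Normal ℚ (normalClosure ℚ F Qb) _ _
      (IntermediateField.algebra' (normalClosure ℚ F Qb)))

theorem map_normal (K : IntermediateField ℚ Qb) [hK : Normal ℚ K] (g : Gal(Qb/ℚ)) :
    K.map g.toAlgHom = K := by
  have nK : @Normal ℚ K _ _ (IntermediateField.algebra' K) := hK
  exact normal_iff_forall_map_eq.1 nK _

theorem rel_map {k : IntermediateField ℚ Qb} (F : IntermediateField ℚ Qb) (g : Gal(Qb/ℚ)) :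
    relDegree k (F.map g.toAlgHom) = relDegree k F := by
  unfold relDegree
  rw [finrank_map]

/-- a closed class which contains a conjugate of the fixed field of a Sylow subgroup of the
Galois group of `K` contains `K` -/
theorem climb {p : ℕ} {k : IntermediateField ℚ Qb}
    (hkn : ∀ g : Gal(Qb/ℚ), k.map g.toAlgHom = k) {C : IntermediateField ℚ Qb → Prop}
    (hC : IsClosedClass p k C)
    (K F D : IntermediateField ℚ Qb) [FiniteDimensional ℚ K] [Normal ℚ K] (hkF : k ≤ F)
    (hFK : F ≤ K) (hK : ∃ e : ℕ, Module.finrank ℚ K = p ^ e * Module.finrank ℚ F)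
    (hD : NumberField D) (g : Gal(Qb/ℚ)) (hg : F.map g.toAlgHom ≤ D) (h : C D) : C K := by
  have h1 : C (F.map g.toAlgHom) := hC.sub _ _ hD hg h
  refine hC.ext _ _ ((nf_iff K).2 inferInstance) ?_ ⟨?_, fun g' _ => map_normal K g', ?_⟩ h1
  · rw [← hkn g]
    exact IntermediateField.map_mono _ hkF
  · rw [← map_normal K g]
    exact IntermediateField.map_mono _ hFK
  · obtain ⟨e, he⟩ := hK
    exact ⟨e, by rw [finrank_map, he]⟩

theorem map_one_le (F : IntermediateField ℚ Qb) : F.map (1 : Gal(Qb/ℚ)).toAlgHom ≤ F := by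
  rintro _ ⟨x, hx, rfl⟩
  exact hx

theorem map_map' (F : IntermediateField ℚ Qb) (g h : Gal(Qb/ℚ)) :
    (F.map g.toAlgHom).map h.toAlgHom = F.map (h * g : Gal(Qb/ℚ)).toAlgHom := by
  rw [IntermediateField.map_map]
  rfl

theorem rel_self {k : IntermediateField ℚ Qb} (hk : NumberField k) : relDegree k k = 1 := by
  have : FiniteDimensional ℚ k := (nf_iff k).1 hk
  exact Nat.div_self Module.finrank_pos

/-- **which sets of number fields suffice** -/
theorem suffices_iff (p : ℕ) (hp : p.Prime) (k : IntermediateField ℚ Qb) (hk : NumberField k)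
    (hkn : ∀ g : Gal(Qb/ℚ), k.map g.toAlgHom = k) (S : Set (IntermediateField ℚ Qb))
    (hS : ∀ D ∈ S, NumberField D) :
    List.TFAE [
      ∀ C : IntermediateField ℚ Qb → Prop, IsClosedClass p k C → (∀ D ∈ S, C D) →
        ∀ F : IntermediateField ℚ Qb, NumberField F → C F,
      ∀ C : IntermediateField ℚ Qb → Prop, IsStronglyClosedClass p k C → (∀ D ∈ S, C D) →
        ∀ F : IntermediateField ℚ Qb, NumberField F → C F,
      ∀ F : IntermediateField ℚ Qb, NumberField F → k ≤ F → ¬ p ∣ relDegree k F →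
        ∃ D ∈ S, ∃ g : Gal(Qb/ℚ), F.map g.toAlgHom ≤ D] := by
  have : Fact p.Prime := ⟨hp⟩
  tfae_have 1 → 2 := by
    intro H C hC
    exact H C ⟨hC.sub, fun F F' hF' hk h => hC.ext F F' hF' hk h.1 h.2.2⟩
  tfae_have 2 → 3 := by
    intro H F hF hkF hpF
    by_contra hcon
    push Not at hcon
    obtain ⟨K, hFK, fK, nK⟩ := exists_normal F hF
    obtain ⟨F1, h1, h2, h3, h4⟩ := sylow_field p k K F hkF hFK hpF
    have hcl : IsStronglyClosedClass p k
        (fun E => ¬ ∃ g : Gal(Qb/ℚ), F1.map g.toAlgHom ≤ E) := by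
      refine ⟨fun E E' _ hEE h => ?_, fun E E' hE' hkE hEE he h => ?_⟩
      · rintro ⟨g, hg⟩
        exact h ⟨g, hg.trans hEE⟩
      · rintro ⟨g, hg⟩
        have fE' : FiniteDimensional ℚ E' := (nf_iff E').1 hE'
        obtain ⟨g', hg'⟩ := sylow_down p k K (F1.map g.toAlgHom) E E'
          (by rw [← hkn g]; exact IntermediateField.map_mono _ (hkF.trans h1))
          (by rw [← map_normal K g]; exact IntermediateField.map_mono _ h2)
          (by rw [rel_map]; exact h3)
          (by obtain ⟨e, he⟩ := h4; exact ⟨e, by rw [finrank_map, he]⟩)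
          hkE hEE he hg
        exact h ⟨g' * g, by rw [← map_map']; exact hg'⟩
    have hb := H _ hcl (fun D hD => by
      rintro ⟨g, hg⟩
      exact hcon D hD g ((IntermediateField.map_mono _ h1).trans hg)) F1
      (nf_of_le h2 ((nf_iff K).2 fK))
    exact hb ⟨1, map_one_le F1⟩
  tfae_have 3 → 1 := by
    intro H C hC hSC F hF
    obtain ⟨K, hFK, fK, nK⟩ := exists_normal (F ⊔ k) (nf_sup hF hk)
    obtain ⟨F1, h1, h2, h3, h4⟩ := sylow_field p k K k le_rfl (le_sup_right.trans hFK) (by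
      rw [rel_self hk]
      exact hp.one_lt.ne' ∘ Nat.dvd_one.1)
    obtain ⟨D, hD, g, hg⟩ := H F1 (nf_of_le h2 ((nf_iff K).2 fK)) h1 h3
    exact hC.sub _ _ ((nf_iff K).2 fK) (le_sup_left.trans hFK)
      (climb hkn hC K F1 D h1 h2 h4 (hS D hD) g hg (hSC D hD))
  tfae_finish

/-- **reduction to extensions of degree prime to `p`** -/
theorem reduction (p : ℕ) (hp : p.Prime) (k : IntermediateField ℚ Qb)
    (hkn : ∀ g : Gal(Qb/ℚ), k.map g.toAlgHom = k) (N m : ℕ) (F₀ : IntermediateField ℚ Qb)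
    (hF₀ : NumberField F₀) (hkF₀ : k ≤ F₀) (hpF₀ : ¬ p ∣ relDegree k F₀)
    (C : IntermediateField ℚ Qb → Prop) (hC : IsClosedClass p k C) :
    (∀ F : IntermediateField ℚ Qb, NumberField F → C F) ↔
    ∀ F : IntermediateField ℚ Qb, NumberField F → F₀ ≤ F → ¬ p ∣ relDegree k F →
      N ≤ complexPlaces F → realPlaces F ^ m ≤ Module.finrank ℚ F → HighlyRamified m F → C F := by
  have : Fact p.Prime := ⟨hp⟩
  constructor
  · intro H F hF _ _ _ _ _
    exact H F hF
  · intro H F hF
    obtain ⟨K, hFK, fK, nK⟩ := exists_normal (F ⊔ F₀) (nf_sup hF hF₀)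
    obtain ⟨F1, h1, h2, h3, h4⟩ := sylow_field p k K F₀ hkF₀ (le_sup_right.trans hFK) hpF₀
    obtain ⟨F2, g1, g2, g3, g4, g5, g6⟩ := enlarge p hp N m k F1
      (nf_of_le h2 ((nf_iff K).2 fK)) (hkF₀.trans h1) h3
    have h5 := H F2 g1 (h1.trans g2) g3 g4 g5 g6
    exact hC.sub _ _ ((nf_iff K).2 fK) (le_sup_left.trans hFK)
      (climb hkn hC K F1 F2 (hkF₀.trans h1) h2 h4 g1 1 ((map_one_le F1).trans g2) h5)

end Pool.Agent.TH570.Mu
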