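import Pool.Agent.TH570.Mu.Defs

/-!
# Classes of totally real number fields closed under subfields and Galois `p`-extensions
-/

set_option autoImplicit false

open NumberField

namespace Pool.Agent.TH570.Mu

/-- A class of totally real number fields which contains with a field all its subfields and all
its totally real Galois extensions of `p`-power degree. -/
structure IsClosedRealClass (p : ℕ) (C : IntermediateField ℚ (AlgebraicClosure ℚ) → Prop) :
    Prop where
  /-- closed under subfields -/
  sub : ∀ F F' : IntermediateField ℚ (AlgebraicClosure ℚ), NumberField F' → IsTotallyReal F' →
    F ≤ F' → C F' → C F
  /-- closed under totally real Galois extensions of `p`-power degree -/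
  ext : ∀ F F' : IntermediateField ℚ (AlgebraicClosure ℚ), NumberField F' → IsTotallyReal F' →
    IsPExtension p F F' → C F → C F'

end Pool.Agent.TH570.Mu
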