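import Mathlib

set_option autoImplicit false

open Polynomial Finset

namespace Pool.Agent.TH570.Mu

/-- the polynomial `∏ i < l, (X - a i) + a` -/
noncomputable def fpoly (a l : ℕ) : ℤ[X] :=
  ∏ i ∈ range l, (X - C ((a * i : ℕ) : ℤ)) + C (a : ℤ)

theorem fpoly_natDegree (a l : ℕ) : (fpoly a l).natDegree = l := by
  unfold fpoly
  rw [natDegree_add_C, natDegree_finsetProd_X_sub_C_eq_card, card_range]

theorem fpoly_monic (a l : ℕ) (hl : 0 < l) : (fpoly a l).Monic := by
  unfold fpoly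
  have h1 : (∏ i ∈ range l, (X - C ((a * i : ℕ) : ℤ))).Monic :=
    monic_prod_of_monic _ _ fun i _ => monic_X_sub_C _
  refine Monic.add_of_left h1 ?_
  refine lt_of_le_of_lt degree_C_le ?_
  rw [degree_eq_natDegree h1.ne_zero,
    natDegree_finsetProd_X_sub_C_eq_card, card_range]
  exact_mod_cast hl

theorem fpoly_eval {R : Type*} [CommRing R] (a l : ℕ) (f : ℤ →+* R) (y : R) :
    eval₂ f y (fpoly a l) = ∏ i ∈ range l, (y - ((a * i : ℕ) : R)) + (a : R) := by
  unfold fpoly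
  rw [eval₂_add, eval₂_finsetProd]
  simp

theorem fpoly_irreducible {c l : ℕ} (hl : 2 ≤ l) (hc : Nat.Coprime 2 c) :
    Irreducible (fpoly (2 * c) l) := by
  have hm := fpoly_monic (2 * c) l (by omega)
  have hmap : (fpoly (2 * c) l).map (Int.castRingHom (ZMod 2)) = X ^ l := by
    unfold fpoly
    have h2 : ∀ i : ℕ, ((2 * c * i : ℕ) : ZMod 2) = 0 := fun i => by
      rw [mul_assoc, Nat.cast_mul]
      exact mul_eq_zero_of_left rfl _
    have h3 : ((2 * c : ℕ) : ZMod 2) = 0 := by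
      rw [Nat.cast_mul]
      exact mul_eq_zero_of_left rfl _
    rw [Polynomial.map_add, Polynomial.map_prod, Polynomial.map_C]
    have h4 : ∀ i ∈ range l, Polynomial.map (Int.castRingHom (ZMod 2))
        (X - C ((2 * c * i : ℕ) : ℤ)) = X := by
      intro i _
      rw [Polynomial.map_sub, Polynomial.map_X, Polynomial.map_C, eq_intCast, Int.cast_natCast,
        h2 i, C_0, sub_zero]
    rw [prod_congr rfl h4, prod_const, card_range, eq_intCast, Int.cast_natCast, h3, C_0, add_zero]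
  have hprime : (Ideal.span {(2 : ℤ)}).IsPrime :=
    (Ideal.span_singleton_prime two_ne_zero).2 Int.prime_two
  refine irreducible_of_eisenstein_criterion hprime ?_ ?_ ?_ ?_ hm.isPrimitive
  · rw [hm.leadingCoeff]
    intro h
    exact hprime.ne_top ((Ideal.eq_top_iff_one _).2 h)
  · intro n hn
    rw [degree_eq_natDegree hm.ne_zero, fpoly_natDegree] at hn
    have hn' : n < l := by exact_mod_cast hn
    have h1 : (((fpoly (2 * c) l).coeff n : ℤ) : ZMod 2) = 0 := by
      have := congrArg (fun f => coeff f n) hmap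
      simp only [coeff_map, coeff_X_pow] at this
      rw [if_neg (by omega)] at this
      simpa using this
    rw [Ideal.mem_span_singleton]
    exact_mod_cast (ZMod.intCast_zmod_eq_zero_iff_dvd _ 2).1 h1
  · rw [degree_eq_natDegree hm.ne_zero, fpoly_natDegree]
    exact_mod_cast (by omega : 0 < l)
  · have h0 : (fpoly (2 * c) l).coeff 0 = ((2 * c : ℕ) : ℤ) := by
      rw [coeff_zero_eq_eval_zero]
      unfold fpoly
      rw [eval_add, eval_prod, prod_eq_zero (mem_range.2 (by omega : 0 < l)) (by simp)]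
      simp
    rw [h0, Ideal.span_singleton_pow, Ideal.mem_span_singleton]
    intro h
    have h4 : (4 : ℕ) ∣ 2 * c := by
      have : ((4 : ℕ) : ℤ) ∣ ((2 * c : ℕ) : ℤ) := by
        have e : ((4 : ℕ) : ℤ) = 2 ^ 2 := by norm_num
        rw [e]
        exact h
      exact_mod_cast this
    have h5 : 2 ∣ c := by omega
    have := Nat.Coprime.eq_one_of_dvd hc h5
    omega

/-- the sign of the product between two consecutive roots -/
theorem sgn (a l j : ℕ) (hj : j ≤ l) :
    ((a : ℝ) / 2) ^ l ≤ (-1) ^ (l - j) *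
      ∏ i ∈ range l, (((a : ℝ) * j - a / 2) - ((a * i : ℕ) : ℝ)) := by
  have ha : (0 : ℝ) ≤ a := Nat.cast_nonneg a
  rw [← prod_range_mul_prod_Ico _ hj]
  have h1 : ((a : ℝ) / 2) ^ j ≤ ∏ i ∈ range j, (((a : ℝ) * j - a / 2) - ((a * i : ℕ) : ℝ)) := by
    have e : ((a : ℝ) / 2) ^ j = ∏ _i ∈ range j, ((a : ℝ) / 2) := by
      rw [prod_const, card_range]
    rw [e]
    refine prod_le_prod (fun _ _ => by positivity) fun i hi => ?_
    have hi' : (i : ℝ) + 1 ≤ j := by exact_mod_cast mem_range.1 hi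
    push_cast
    nlinarith [mul_nonneg ha (sub_nonneg.2 hi')]
  have h2 : ((a : ℝ) / 2) ^ (l - j) ≤ ∏ i ∈ Ico j l,
      (((a * i : ℕ) : ℝ) - ((a : ℝ) * j - a / 2)) := by
    have e : ((a : ℝ) / 2) ^ (l - j) = ∏ _i ∈ Ico j l, ((a : ℝ) / 2) := by
      rw [prod_const, Nat.card_Ico]
    rw [e]
    refine prod_le_prod (fun _ _ => by positivity) fun i hi => ?_
    have hi' : (j : ℝ) ≤ i := by exact_mod_cast (mem_Ico.1 hi).1
    push_cast
    nlinarith [mul_nonneg ha (sub_nonneg.2 hi')]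
  have h3 : ∏ i ∈ Ico j l, (((a : ℝ) * j - a / 2) - ((a * i : ℕ) : ℝ)) =
      (-1) ^ (l - j) * ∏ i ∈ Ico j l, (((a * i : ℕ) : ℝ) - ((a : ℝ) * j - a / 2)) := by
    have e : ((-1 : ℝ)) ^ (l - j) = ∏ _i ∈ Ico j l, (-1 : ℝ) := by
      rw [prod_const, Nat.card_Ico]
    rw [e, ← prod_mul_distrib]
    exact prod_congr rfl fun i _ => by ring
  have h4 : ((-1 : ℝ)) ^ (l - j) * (-1) ^ (l - j) = 1 := by
    rw [← mul_pow]; norm_num
  rw [h3]
  calc ((a : ℝ) / 2) ^ l = (a / 2) ^ j * (a / 2) ^ (l - j) := by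
        rw [← pow_add]; congr 1; omega
    _ ≤ (∏ i ∈ range j, (((a : ℝ) * j - a / 2) - ((a * i : ℕ) : ℝ))) *
        ∏ i ∈ Ico j l, (((a * i : ℕ) : ℝ) - ((a : ℝ) * j - a / 2)) :=
        mul_le_mul h1 h2 (by positivity) (le_trans (by positivity) h1)
    _ = ((-1 : ℝ) ^ (l - j) * (-1) ^ (l - j)) *
        ((∏ i ∈ range j, (((a : ℝ) * j - a / 2) - ((a * i : ℕ) : ℝ))) *
        ∏ i ∈ Ico j l, (((a * i : ℕ) : ℝ) - ((a : ℝ) * j - a / 2))) := by rw [h4, one_mul]
    _ = _ := by ring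

/-- a root between two consecutive half-way points -/
theorem exists_root (a l j : ℕ) (ha : 5 ≤ a) (hl : 2 ≤ l) (hj : j < l) :
    ∃ x : ℝ, (a : ℝ) * j - a / 2 < x ∧ x < (a : ℝ) * (j + 1 : ℕ) - a / 2 ∧
      ∏ i ∈ range l, (x - ((a * i : ℕ) : ℝ)) + a = 0 := by
  have ha' : (5 : ℝ) ≤ a := by exact_mod_cast ha
  have hbig : (a : ℝ) < (a / 2) ^ l := by
    have h1 : ((a : ℝ) / 2) ^ 2 ≤ (a / 2) ^ l := pow_le_pow_right₀ (by linarith) hl
    nlinarith
  have key : ∀ k ≤ l, 0 < (-1 : ℝ) ^ (l - k) *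
      (∏ i ∈ range l, (((a : ℝ) * k - a / 2) - ((a * i : ℕ) : ℝ)) + a) := by
    intro k hk
    have h1 := sgn a l k hk
    rw [mul_add]
    rcases neg_one_pow_eq_or ℝ (l - k) with h | h
    · rw [h] at h1 ⊢
      linarith
    · rw [h] at h1 ⊢
      linarith
  have k1 := key j hj.le
  have k2 := key (j + 1) hj
  have e : l - j = (l - (j + 1)) + 1 := by omega
  have hcont : ContinuousOn (fun x : ℝ => (-1 : ℝ) ^ (l - j) *
      (∏ i ∈ range l, (x - ((a * i : ℕ) : ℝ)) + a))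
      (Set.Icc ((a : ℝ) * j - a / 2) ((a : ℝ) * (j + 1 : ℕ) - a / 2)) := by
    apply Continuous.continuousOn
    fun_prop
  have hle : (a : ℝ) * j - a / 2 ≤ (a : ℝ) * (j + 1 : ℕ) - a / 2 := by
    push_cast
    nlinarith
  have h0 := intermediate_value_Icc' hle hcont (show (0 : ℝ) ∈ Set.Icc _ _ from ⟨by
    show (-1 : ℝ) ^ (l - j) * _ ≤ 0
    rw [e, pow_succ]
    linarith, k1.le⟩)
  obtain ⟨x, hx, hx0⟩ := h0
  have hs : (-1 : ℝ) ^ (l - j) ≠ 0 := pow_ne_zero _ (by norm_num)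
  have hx1 : ∏ i ∈ range l, (x - ((a * i : ℕ) : ℝ)) + a = 0 :=
    (mul_eq_zero.1 hx0).resolve_left hs
  refine ⟨x, lt_of_le_of_ne hx.1 ?_, lt_of_le_of_ne hx.2 ?_, hx1⟩
  · rintro rfl
    rw [hx1, mul_zero] at k1
    exact lt_irrefl _ k1
  · rintro rfl
    rw [hx1, mul_zero] at k2
    exact lt_irrefl _ k2

/-- all complex roots are real -/
theorem root_real (a l : ℕ) (ha : 5 ≤ a) (hl : 2 ≤ l) (z : ℂ)
    (hz : ∏ i ∈ range l, (z - ((a * i : ℕ) : ℂ)) + a = 0) : ∃ x : ℝ, (x : ℂ) = z := by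
  classical
  have hex : ∀ j : ℕ, ∃ x : ℝ, j < l → (a : ℝ) * j - a / 2 < x ∧
      x < (a : ℝ) * (j + 1 : ℕ) - a / 2 ∧ ∏ i ∈ range l, (x - ((a * i : ℕ) : ℝ)) + a = 0 := by
    intro j
    by_cases hj : j < l
    · obtain ⟨x, hx⟩ := exists_root a l j ha hl hj
      exact ⟨x, fun _ => hx⟩
    · exact ⟨0, fun h => absurd h hj⟩
  choose x hx using hex
  have hmono : ∀ i j : ℕ, i < j → j < l → x i < x j := by
    intro i j hij hj
    have h1 := (hx i (by omega)).2.1
    have h2 := (hx j hj).1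
    have h3 : ((i + 1 : ℕ) : ℝ) ≤ j := by exact_mod_cast hij
    have h4 : (a : ℝ) * (i + 1 : ℕ) ≤ a * j := mul_le_mul_of_nonneg_left h3 (Nat.cast_nonneg a)
    linarith
  set T : Finset ℂ := (range l).image (fun j => (x j : ℂ)) with hT
  have hTc : T.card = l := by
    rw [hT, card_image_of_injOn, card_range]
    intro i hi j hj hij
    have hi' : i < l := by simpa using hi
    have hj' : j < l := by simpa using hj
    have h : x i = x j := Complex.ofReal_injective hij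
    rcases lt_trichotomy i j with h1 | h1 | h1
    · exact absurd h (hmono i j h1 hj').ne
    · exact h1
    · exact absurd h (hmono j i h1 hi').ne'
  set P : ℂ[X] := ∏ i ∈ range l, (X - C ((a * i : ℕ) : ℂ)) + C (a : ℂ) with hP
  have hPd : P.natDegree = l := by
    rw [hP, natDegree_add_C, natDegree_finsetProd_X_sub_C_eq_card, card_range]
  have hP0 : P ≠ 0 := by
    intro h
    rw [h, natDegree_zero] at hPd
    omega
  have hev : ∀ w : ℂ, P.eval w = ∏ i ∈ range l, (w - ((a * i : ℕ) : ℂ)) + a := by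
    intro w
    rw [hP, eval_add, eval_prod]
    simp
  have hsub : T ⊆ P.roots.toFinset := by
    intro w hw
    rw [hT, mem_image] at hw
    obtain ⟨j, hj, rfl⟩ := hw
    rw [Multiset.mem_toFinset, mem_roots hP0, IsRoot.def, hev]
    have := (hx j (mem_range.1 hj)).2.2
    exact_mod_cast this
  have hcard : P.roots.toFinset.card ≤ T.card := by
    rw [hTc, ← hPd]
    exact (Multiset.toFinset_card_le _).trans (card_roots' _)
  have heq := eq_of_subset_of_card_le hsub hcard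
  have hzT : z ∈ T := by
    rw [heq, Multiset.mem_toFinset, mem_roots hP0, IsRoot.def, hev]
    exact hz
  rw [hT, mem_image] at hzT
  obtain ⟨j, _, hj⟩ := hzT
  exact ⟨x j, hj⟩

end Pool.Agent.TH570.Mu
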