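import Pool.Agent.TH570.Mu.Main
import Pool.Agent.TH570.Mu.RealDefs
import Pool.Agent.TH570.Mu.RealRoots

set_option autoImplicit false

open NumberField IntermediateField Pool.Agent.TH965.St
open Pool.Agent.TH877.LC (primorial_eq)

namespace Pool.Agent.TH570.Mu

theorem exp_ge_prod {F : Type*} [Field F] [NumberField F] {l : ℕ} {y : 𝓞 F} {p c : ℕ}
    (hy : ∏ i ∈ Finset.range l, (y - ((p * c * i : ℕ) : 𝓞 F)) + ((p * c : ℕ) : 𝓞 F) = 0)
    (hpc : Nat.Coprime p c) {P : Ideal (𝓞 F)} (hP : P.IsPrime) {e : ℕ} (he : 1 ≤ e)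
    (h1 : (p : 𝓞 F) ∈ P ^ e) (h2 : (p : 𝓞 F) ∉ P ^ (e + 1)) : l ≤ e := by
  by_contra hlt
  push Not at hlt
  apply h2
  have hpP : (p : 𝓞 F) ∈ P := by
    have := Ideal.pow_le_pow_right (I := P) he h1
    rwa [pow_one] at this
  have hai : ∀ i : ℕ, ((p * c * i : ℕ) : 𝓞 F) ∈ P := by
    intro i
    rw [mul_assoc, Nat.cast_mul]
    exact P.mul_mem_right _ hpP
  have hprod : ∏ i ∈ Finset.range l, (y - ((p * c * i : ℕ) : 𝓞 F)) = -((p * c : ℕ) : 𝓞 F) :=
    eq_neg_of_add_eq_zero_left hy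
  have hyP : y ∈ P := by
    have h3 : ∏ i ∈ Finset.range l, (y - ((p * c * i : ℕ) : 𝓞 F)) ∈ P := by
      rw [hprod, Nat.cast_mul]
      exact P.neg_mem (P.mul_mem_right _ hpP)
    obtain ⟨i, -, hi⟩ := Ideal.IsPrime.prod_mem_iff.1 h3
    have := P.add_mem hi (hai i)
    rwa [sub_add_cancel] at this
  have h3 : (p : 𝓞 F) * (c : 𝓞 F) ∈ P ^ (e + 1) := by
    have h5 : ∏ i ∈ Finset.range l, (y - ((p * c * i : ℕ) : 𝓞 F)) ∈
        ∏ _i ∈ Finset.range l, P :=
      Ideal.prod_mem_prod fun i _ => P.sub_mem hyP (hai i)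
    rw [Finset.prod_const, Finset.card_range, hprod] at h5
    have h6 := Ideal.pow_le_pow_right (I := P) (show e + 1 ≤ l by omega) h5
    have h7 := (P ^ (e + 1)).neg_mem h6
    rwa [neg_neg, Nat.cast_mul] at h7
  have h4 : (p : 𝓞 F) * (p : 𝓞 F) ∈ P ^ (e + 1) := by
    have : (p : 𝓞 F) * (p : 𝓞 F) ∈ P ^ (e + e) := by
      rw [pow_add]; exact Ideal.mul_mem_mul h1 h1
    exact Ideal.pow_le_pow_right (I := P) (by omega) this
  have hco : IsCoprime (p : ℤ) (c : ℤ) := Nat.isCoprime_iff_coprime.2 hpc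
  obtain ⟨u, v, huv⟩ := hco
  have e1 : (1 : 𝓞 F) = (u : 𝓞 F) * (p : 𝓞 F) + (v : 𝓞 F) * (c : 𝓞 F) := by
    have := congrArg (Int.cast : ℤ → 𝓞 F) huv
    push_cast at this
    exact this.symm
  have e2 : (p : 𝓞 F) = (u : 𝓞 F) * ((p : 𝓞 F) * (p : 𝓞 F)) +
      (v : 𝓞 F) * ((p : 𝓞 F) * (c : 𝓞 F)) := by
    calc (p : 𝓞 F) = (p : 𝓞 F) * 1 := by rw [mul_one]
      _ = _ := by rw [e1]; ring
  rw [e2]
  exact (P ^ (e + 1)).add_mem (Ideal.mul_mem_left _ _ h4) (Ideal.mul_mem_left _ _ h3)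

/-! ### totally real fields -/

/-- the field of totally real numbers -/
noncomputable def Qtr : IntermediateField ℚ Qb :=
  (maximalRealSubfield Qb).toIntermediateField (by
    intro x φ
    simp)

theorem mem_Qtr (x : Qb) : x ∈ Qtr ↔ ∀ φ : Qb →+* ℂ, star (φ x) = φ x := Iff.rfl

theorem tr_iff (F : IntermediateField ℚ Qb) : IsTotallyReal F ↔ F ≤ Qtr :=
  isTotallyReal_iff_le_maximalRealSubfield (E := F.toSubfield)

theorem tr_sup {F E : IntermediateField ℚ Qb} (hF : IsTotallyReal F) (hE : IsTotallyReal E) :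
    IsTotallyReal (F ⊔ E : IntermediateField ℚ Qb) :=
  (tr_iff _).2 (sup_le ((tr_iff F).1 hF) ((tr_iff E).1 hE))

theorem tr_le {F E : IntermediateField ℚ Qb} (h : F ≤ E) (hE : IsTotallyReal E) :
    IsTotallyReal F :=
  (tr_iff _).2 (h.trans ((tr_iff E).1 hE))

/-- a normal totally real number field above a given one -/
theorem exists_normal_real (F : IntermediateField ℚ Qb) (hF : NumberField F)
    (hr : IsTotallyReal F) :
    ∃ K : IntermediateField ℚ Qb, F ≤ K ∧ FiniteDimensional ℚ K ∧ Normal ℚ K ∧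
      IsTotallyReal K := by
  have : FiniteDimensional ℚ F := (nf_iff F).1 hF
  refine ⟨normalClosure ℚ F Qb, le_normalClosure F, ?_, ?_, ?_⟩
  · infer_instance
  · exact (inferInstance : @Normal ℚ (normalClosure ℚ F Qb) _ _
      (IntermediateField.algebra' (normalClosure ℚ F Qb)))
  · rw [tr_iff]
    refine normalClosure_le_iff.2 fun f => ?_
    rintro _ ⟨z, rfl⟩
    rw [mem_Qtr]
    intro φ
    have h1 := IsTotallyReal.complexEmbedding_isReal (φ.comp (f : F →+* Qb))
    rw [ComplexEmbedding.isReal_iff] at h1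
    exact RingHom.congr_fun h1 z

theorem tr_adjoin {y : Qb} (h : ∀ φ : Qb →+* ℂ, star (φ y) = φ y) :
    IsTotallyReal (IntermediateField.adjoin ℚ {y}) := by
  rw [tr_iff, IntermediateField.adjoin_simple_le_iff, mem_Qtr]
  exact h

theorem prod_F (F : IntermediateField ℚ Qb) {a l : ℕ} {y : Qb} (hyF : y ∈ F)
    (hy : ∏ i ∈ Finset.range l, (y - ((a * i : ℕ) : Qb)) + (a : Qb) = 0) :
    ∏ i ∈ Finset.range l, ((⟨y, hyF⟩ : F) - ((a * i : ℕ) : F)) + (a : F) = 0 := by
  apply F.val.injective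
  rw [map_add, map_prod, map_natCast, map_zero, ← hy]
  congr 1

/-- every totally real field of degree prime to `p` is contained in one in which all small prime
numbers are highly ramified -/
theorem enlarge_real (p : ℕ) (hp : p.Prime) (N m : ℕ) (K : IntermediateField ℚ Qb)
    (hK : NumberField K) (hr : IsTotallyReal K) (hpK : ¬ p ∣ Module.finrank ℚ K) :
    ∃ F : IntermediateField ℚ Qb, NumberField F ∧ IsTotallyReal F ∧ K ≤ F ∧
      ¬ p ∣ Module.finrank ℚ F ∧ N ≤ Module.finrank ℚ F ∧ HighlyRamified m F := by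
  classical
  set n : ℕ := Module.finrank ℚ K with hn
  obtain ⟨l, hl, hll⟩ := Nat.exists_infinite_primes (n ^ m + n + N + 3 + p)
  have hFl : Fact l.Prime := ⟨hll⟩
  have hfK : FiniteDimensional ℚ K := (nf_iff K).1 hK
  have hn0 : 0 < n := Module.finrank_pos
  have hpow : n ^ m ≤ l := by omega
  have hnl : n < l := by omega
  have hl3 : 3 ≤ l := by omega
  have hnl2 : l ≤ n * l := Nat.le_mul_of_pos_left _ hn0
  set a : ℕ := primorial (n * l) with hadef
  have ha0 : 0 < a := primorial_pos _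
  obtain ⟨c2, hc2, hc2'⟩ := primorial_eq Nat.prime_two (show 2 ≤ n * l by omega)
  obtain ⟨c3, hc3, _⟩ := primorial_eq Nat.prime_three (show 3 ≤ n * l by omega)
  rw [← hadef] at hc2 hc3
  have ha5 : 5 ≤ a := by omega
  have hirr : Irreducible (fpoly a l) := by
    rw [hc2]
    exact fpoly_irreducible (by omega) hc2'
  have hm := fpoly_monic a l (by omega)
  have hirrQ : Irreducible ((fpoly a l).map (algebraMap ℤ ℚ)) :=
    (hm.irreducible_iff_irreducible_map_fraction_map (K := ℚ)).1 hirr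
  have hdeg : ((fpoly a l).map (algebraMap ℤ ℚ)).natDegree = l := by
    rw [hm.natDegree_map, fpoly_natDegree]
  obtain ⟨y, hy0⟩ : ∃ y : Qb, Polynomial.aeval y ((fpoly a l).map (algebraMap ℤ ℚ)) = 0 :=
    IsAlgClosed.exists_aeval_eq_zero Qb _ (Polynomial.degree_pos_of_irreducible hirrQ).ne'
  have fy : Module.finrank ℚ (IntermediateField.adjoin ℚ {y}) = l := by
    rw [IntermediateField.adjoin.finrank (Algebra.IsAlgebraic.isAlgebraic (R := ℚ) y).isIntegral,
      ← minpoly.eq_of_irreducible_of_monic hirrQ hy0 (hm.map _), hdeg]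
  have hy : ∏ i ∈ Finset.range l, (y - ((a * i : ℕ) : Qb)) + (a : Qb) = 0 := by
    rw [Polynomial.aeval_def, Polynomial.eval₂_map, fpoly_eval] at hy0
    exact hy0
  have hFy : NumberField (IntermediateField.adjoin ℚ {y}) := nf_adjoin y
  have hry : IsTotallyReal (IntermediateField.adjoin ℚ {y}) := by
    refine tr_adjoin fun φ => ?_
    have h1 := congrArg φ hy
    rw [map_add, map_prod, map_natCast, map_zero] at h1
    have h2 : ∏ i ∈ Finset.range l, (φ y - ((a * i : ℕ) : ℂ)) + (a : ℂ) = 0 := by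
      rw [← h1]
      congr 1
      refine Finset.prod_congr rfl fun i _ => ?_
      rw [map_sub, map_natCast]
    obtain ⟨x, hx⟩ := root_real a l ha5 (by omega) _ h2
    rw [← hx]
    exact Complex.conj_ofReal x
  have hK1 : NumberField (K ⊔ IntermediateField.adjoin ℚ {y} : IntermediateField ℚ Qb) :=
    nf_sup hK hFy
  have f1 : FiniteDimensional ℚ (K ⊔ IntermediateField.adjoin ℚ {y} : IntermediateField ℚ Qb) :=
    (nf_iff _).1 hK1
  have ffy : FiniteDimensional ℚ (IntermediateField.adjoin ℚ {y}) := (nf_iff _).1 hFy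
  have d1 : Module.finrank ℚ (K ⊔ IntermediateField.adjoin ℚ {y} : IntermediateField ℚ Qb)
      ≤ n * l := by
    have := IntermediateField.finrank_sup_le K (IntermediateField.adjoin ℚ {y})
    rwa [fy] at this
  have d0 : Module.finrank ℚ (K ⊔ IntermediateField.adjoin ℚ {y} : IntermediateField ℚ Qb)
      = n * l := by
    have e1 : n ∣ Module.finrank ℚ
        (K ⊔ IntermediateField.adjoin ℚ {y} : IntermediateField ℚ Qb) :=
      IntermediateField.finrank_dvd_of_le_right
        (le_sup_left : K ≤ K ⊔ IntermediateField.adjoin ℚ {y})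
    have e2 : l ∣ Module.finrank ℚ
        (K ⊔ IntermediateField.adjoin ℚ {y} : IntermediateField ℚ Qb) := by
      have := IntermediateField.finrank_dvd_of_le_right
        (le_sup_right : IntermediateField.adjoin ℚ {y} ≤ K ⊔ IntermediateField.adjoin ℚ {y})
      rwa [fy] at this
    have e3 : Nat.Coprime n l :=
      (Nat.Coprime.symm ((Nat.Prime.coprime_iff_not_dvd hll).2
        fun h => absurd (Nat.le_of_dvd hn0 h) (by omega)))
    have e4 := Nat.Coprime.mul_dvd_of_dvd_of_dvd e3 e1 e2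
    exact le_antisymm d1 (Nat.le_of_dvd Module.finrank_pos e4)
  refine ⟨_, hK1, tr_sup hr hry, le_sup_left, ?_, ?_, ?_⟩
  · rw [d0]
    intro h
    rcases (Nat.Prime.dvd_mul hp).1 h with h1 | h1
    · exact hpK h1
    · have := (Nat.prime_dvd_prime_iff_eq hp hll).1 h1
      omega
  · rw [d0]
    omega
  · intro q hq hqd P hP e he h1 h2
    rw [d0] at hqd ⊢
    obtain ⟨c, hc1, hcc⟩ := primorial_eq hq hqd
    rw [← hadef] at hc1
    have hyF : y ∈ (K ⊔ IntermediateField.adjoin ℚ {y} : IntermediateField ℚ Qb) :=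
      (le_sup_right : IntermediateField.adjoin ℚ {y} ≤ _)
        (IntermediateField.mem_adjoin_simple_self ℚ y)
    have hyp' := prod_F _ hyF hy
    let y1 : 𝓞 (K ⊔ IntermediateField.adjoin ℚ {y} : IntermediateField ℚ Qb) :=
      ⟨⟨y, hyF⟩, ⟨fpoly a l, hm, by
        rw [fpoly_eval]
        exact hyp'⟩⟩
    have hy1 : ∏ i ∈ Finset.range l, (y1 - ((q * c * i : ℕ) : 𝓞 (K ⊔
        IntermediateField.adjoin ℚ {y} : IntermediateField ℚ Qb))) +
        ((q * c : ℕ) : 𝓞 (K ⊔ IntermediateField.adjoin ℚ {y} : IntermediateField ℚ Qb)) = 0 := by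
      apply RingOfIntegers.coe_injective
      rw [← hc1, map_add, map_prod, map_natCast, map_zero]
      refine Eq.trans ?_ hyp'
      congr 1
    have hle : l ≤ e := exp_ge_prod hy1 hcc hP he h1 h2
    calc (n * l) ^ m = n ^ m * l ^ m := mul_pow _ _ _
      _ ≤ l * l ^ m := Nat.mul_le_mul_right _ hpow
      _ = l ^ (m + 1) := by rw [pow_succ, mul_comm]
      _ ≤ e ^ (m + 1) := Nat.pow_le_pow_left hle _

theorem rel_bot (F : IntermediateField ℚ Qb) :
    relDegree ⊥ F = Module.finrank ℚ F := by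
  unfold relDegree
  rw [IntermediateField.finrank_bot, Nat.div_one]

/-- **reduction to totally real fields of degree prime to `p`** -/
theorem reduction_real (p : ℕ) (hp : p.Prime) (N m : ℕ) (F₀ : IntermediateField ℚ Qb)
    (hF₀ : NumberField F₀) (hr₀ : IsTotallyReal F₀) (hpF₀ : ¬ p ∣ Module.finrank ℚ F₀)
    (C : IntermediateField ℚ Qb → Prop) (hC : IsClosedRealClass p C) :
    (∀ F : IntermediateField ℚ Qb, NumberField F → IsTotallyReal F → C F) ↔
    ∀ F : IntermediateField ℚ Qb, NumberField F → IsTotallyReal F → F₀ ≤ F →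
      ¬ p ∣ Module.finrank ℚ F → N ≤ Module.finrank ℚ F → HighlyRamified m F → C F := by
  have : Fact p.Prime := ⟨hp⟩
  constructor
  · intro H F hF hr _ _ _ _
    exact H F hF hr
  · intro H F hF hr
    obtain ⟨K, hFK, fK, nK, rK⟩ := exists_normal_real (F ⊔ F₀) (nf_sup hF hF₀) (tr_sup hr hr₀)
    obtain ⟨F1, h1, h2, h3, h4⟩ := sylow_field p ⊥ K F₀ bot_le (le_sup_right.trans hFK)
      (by rwa [rel_bot])
    rw [rel_bot] at h3
    have hK : NumberField K := (nf_iff K).2 fK
    obtain ⟨F2, g1, g2, g3, g4, g5, g6⟩ := enlarge_real p hp N m F1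
      (nf_of_le h2 hK) (tr_le h2 rK) h3
    have h5 := H F2 g1 g2 (h1.trans g3) g4 g5 g6
    exact hC.sub _ _ hK rK (le_sup_left.trans hFK)
      (hC.ext _ _ hK rK ⟨h2, fun g' _ => map_normal K g', h4⟩ (hC.sub _ _ g1 g2 g3 h5))

end Pool.Agent.TH570.Mu
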