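import Pool.Agent.TH570.Mu.Defs
import Pool.Agent.TH965.St.Defs

set_option autoImplicit false

open NumberField IntermediateField

namespace Pool.Agent.TH570.Mu

/-! ### group theory -/

/-- a subgroup which contains with `p`-power index a subgroup of `P` is conjugate to a subgroup
of `P`, if `P` has index prime to `p` and contains with `p`-power index a normal subgroup -/
theorem group_down {Γ : Type*} [Group Γ] (p : ℕ) [Fact p.Prime] (N P A A' : Subgroup Γ)
    [N.Normal] (hNP : N ≤ P) (hP : ¬ p ∣ P.index) {k' : ℕ} (r2 : N.relIndex P = p ^ k')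
    (hA' : A' ≤ P) (hAA : A' ≤ A) {k : ℕ} (r1 : A'.relIndex A = p ^ k) :
    ∃ γ : Γ, ∀ a ∈ A, γ * a * γ⁻¹ ∈ P := by
  classical
  have hpp : p.Prime := Fact.out
  obtain ⟨f, hf⟩ : ∃ f : Γ →* Γ ⧸ N, f = QuotientGroup.mk' N := ⟨_, rfl⟩
  have hfs : Function.Surjective f := by
    rw [hf]
    exact QuotientGroup.mk'_surjective N
  have hker : f.ker = N := by
    rw [hf]
    exact QuotientGroup.ker_mk' N
  have hP0 : P.index ≠ 0 := fun h => hP (by rw [h]; exact dvd_zero p)
  have hN0 : N.index ≠ 0 := by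
    rw [← Subgroup.relIndex_mul_index hNP, r2]
    exact mul_ne_zero (pow_ne_zero _ hpp.ne_zero) hP0
  have hfin : N.FiniteIndex := ⟨hN0⟩
  have hfinq : Finite (Γ ⧸ N) := inferInstance
  have cS : Nat.card (P.map f) = p ^ k' := by
    rw [← Subgroup.relIndex_ker, hker, r2]
  have hSp : IsPGroup p (P.map f) := IsPGroup.of_card cS
  have hSi : ¬ p ∣ (P.map f).index := by
    rw [Subgroup.index_map_eq _ hfs (by rw [hker]; exact hNP)]
    exact hP
  have cB' : Nat.card (A'.map f) ∣ p ^ k' := by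
    rw [← cS]
    exact Subgroup.card_dvd_of_le (Subgroup.map_mono hA')
  have cB : Nat.card (A.map f) ∣ p ^ (k' + k) := by
    rw [← Subgroup.relIndex_ker, hker]
    have h1 : N.relIndex A ∣ (N ⊓ A').relIndex A := Subgroup.relIndex_dvd_of_le_left _ inf_le_left
    have h2 := Subgroup.relIndex_mul_relIndex (N ⊓ A') A' A inf_le_right hAA
    rw [Subgroup.inf_relIndex_right, r1, ← hker, Subgroup.relIndex_ker] at h2
    rw [← hker] at h1
    rw [← hker]
    refine h1.trans ?_
    rw [← h2, pow_add]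
    exact Nat.mul_dvd_mul cB' dvd_rfl
  have hBp : IsPGroup p (A.map f) := IsPGroup.of_card_dvd_pow cB
  obtain ⟨Q, hQ⟩ := hBp.exists_le_sylow
  obtain ⟨x, hx⟩ := MulAction.exists_smul_eq (Γ ⧸ N) Q (hSp.toSylow hSi)
  obtain ⟨γ, rfl⟩ := hfs x
  refine ⟨γ, fun a ha => ?_⟩
  have h1 : f a ∈ (Q : Subgroup (Γ ⧸ N)) := hQ ⟨a, ha, rfl⟩
  have h2 : f γ * f a * (f γ)⁻¹ ∈ ((f γ • Q : Sylow p (Γ ⧸ N)) : Subgroup (Γ ⧸ N)) := by
    rw [Sylow.coe_subgroup_smul]
    exact (Subgroup.smul_mem_pointwise_smul_iff (a := MulAut.conj (f γ))).2 h1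
  rw [hx] at h2
  have h3 : f (γ * a * γ⁻¹) ∈ P.map f := by
    rw [map_mul, map_mul, map_inv]
    exact h2
  have h4 : P = (P.map f).comap f :=
    (Subgroup.comap_map_eq_self (by rw [hker]; exact hNP)).symm
  rw [h4]
  exact h3

/-! ### fields -/

open Pool.Agent.TH965.St (Qb nf_iff)

instance galQb : IsGalois ℚ Qb := ⟨⟩

theorem fd_of {F F' : IntermediateField ℚ Qb} (h : F ≤ F') [FiniteDimensional ℚ F'] :
    FiniteDimensional ℚ F :=
  FiniteDimensional.of_injective (IntermediateField.inclusion h).toLinearMap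
    (IntermediateField.inclusion h).injective

theorem finrank_map (F : IntermediateField ℚ Qb) (g : Gal(Qb/ℚ)) :
    Module.finrank ℚ (F.map g.toAlgHom) = Module.finrank ℚ F :=
  ((F.equivMap g.toAlgHom).toLinearEquiv.finrank_eq).symm

theorem rel_eq {k F : IntermediateField ℚ Qb} [FiniteDimensional ℚ F] (h : k ≤ F) :
    relDegree k F * Module.finrank ℚ k = Module.finrank ℚ F :=
  Nat.div_mul_cancel (IntermediateField.finrank_dvd_of_le_right h)

/-- the fixed field of a Sylow `p`-subgroup -/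
theorem sylow_field (p : ℕ) [Fact p.Prime] (k K F0 : IntermediateField ℚ Qb)
    [FiniteDimensional ℚ K] [Normal ℚ K] (hk : k ≤ F0) (h0 : F0 ≤ K)
    (h : ¬ p ∣ relDegree k F0) :
    ∃ F : IntermediateField ℚ Qb, F0 ≤ F ∧ F ≤ K ∧ ¬ p ∣ relDegree k F ∧
      ∃ e : ℕ, Module.finrank ℚ K = p ^ e * Module.finrank ℚ F := by
  classical
  have : IsGalois ℚ K := ⟨⟩
  have fF0 : FiniteDimensional ℚ F0 := fd_of h0
  have fk : FiniteDimensional ℚ k := fd_of hk
  set F1 : IntermediateField ℚ K := restrict h0 with hF1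
  let P : Sylow p F1.fixingSubgroup := default
  set P1 : Subgroup Gal(K/ℚ) := (P : Subgroup F1.fixingSubgroup).map
    F1.fixingSubgroup.subtype with hP1
  have hle : P1 ≤ F1.fixingSubgroup := by
    rintro _ ⟨x, -, rfl⟩
    exact x.2
  have hfix : (fixedField P1).fixingSubgroup = P1 := fixingSubgroup_fixedField P1
  have hd : Module.finrank ℚ (fixedField P1) = P1.index := by
    rw [finrank_eq_fixingSubgroup_index, hfix]
  have hd1 : Module.finrank ℚ F1 = F1.fixingSubgroup.index := by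
    rw [finrank_eq_fixingSubgroup_index]
  have hd0 : Module.finrank ℚ F1 = Module.finrank ℚ F0 :=
    ((restrictAlgEquiv h0).toLinearEquiv.finrank_eq).symm
  have hidx : P1.index = (P : Subgroup F1.fixingSubgroup).index * F1.fixingSubgroup.index := by
    rw [← Subgroup.relIndex_mul_index hle]
    congr 1
    rw [hP1, Subgroup.relIndex]
    congr 1
    exact Subgroup.comap_map_eq_self_of_injective F1.fixingSubgroup.subtype_injective _
  have hlift : Module.finrank ℚ (lift (fixedField P1)) = Module.finrank ℚ (fixedField P1) :=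
    ((liftAlgEquiv (fixedField P1)).toLinearEquiv.finrank_eq).symm
  have hF0F : F0 ≤ lift (fixedField P1) := by
    have h1 : F1 ≤ fixedField P1 := (le_iff_le P1 F1).2 hle
    intro x hx
    have hx1 : (⟨x, h0 hx⟩ : K) ∈ F1 := (mem_restrict h0 _).2 hx
    exact (mem_lift (⟨x, h0 hx⟩ : K)).2 (h1 hx1)
  refine ⟨lift (fixedField P1), hF0F, lift_le _, ?_, ?_⟩
  · have e1 : relDegree k (lift (fixedField P1)) =
        (P : Subgroup F1.fixingSubgroup).index * relDegree k F0 := by
      have hk0 : 0 < Module.finrank ℚ k := Module.finrank_pos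
      unfold relDegree
      rw [hlift, hd, hidx, ← hd1, hd0]
      exact Nat.mul_div_assoc _ (IntermediateField.finrank_dvd_of_le_right hk)
    rw [e1]
    intro hdvd
    rcases (Nat.Prime.dvd_mul Fact.out).1 hdvd with h2 | h2
    · exact P.not_dvd_index h2
    · exact h h2
  · obtain ⟨e, he⟩ := P.isPGroup'.exists_card_eq
    refine ⟨e, ?_⟩
    have h3 : Nat.card P1 = p ^ e := by
      rw [← he]
      exact (Nat.card_congr (Subgroup.equivMapOfInjective _ _
        F1.fixingSubgroup.subtype_injective).toEquiv).symm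
    have h4 : Nat.card Gal(K/ℚ) = Module.finrank ℚ K := IsGalois.card_aut_eq_finrank ℚ K
    rw [hlift, hd, ← h4, ← h3, mul_comm, Subgroup.index_mul_card]

theorem relIndex_fix {F F' : IntermediateField ℚ Qb} [FiniteDimensional ℚ F'] (h : F ≤ F')
    {d : ℕ} (hd : Module.finrank ℚ F' = d * Module.finrank ℚ F) :
    F'.fixingSubgroup.relIndex F.fixingSubgroup = d := by
  have fF : FiniteDimensional ℚ F := fd_of h
  have hF0 : 0 < Module.finrank ℚ F := Module.finrank_pos
  have iF : Module.finrank ℚ F = F.fixingSubgroup.index := by rw [finrank_eq_fixingSubgroup_index]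
  have iF' : Module.finrank ℚ F' = F'.fixingSubgroup.index := by
    rw [finrank_eq_fixingSubgroup_index]
  have := Subgroup.relIndex_mul_index (fixingSubgroup_le h)
  rw [← iF, ← iF', hd] at this
  exact Nat.eq_of_mul_eq_mul_right hF0 this

/-- if an extension of `E` of `p`-power degree contains `F`, then `E` contains a conjugate of
`F`, the fixed field of a Sylow `p`-subgroup of the Galois group of a normal extension -/
theorem sylow_down (p : ℕ) [Fact p.Prime] (k K F E E' : IntermediateField ℚ Qb)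
    [FiniteDimensional ℚ K] [hnK : Normal ℚ K] [FiniteDimensional ℚ E'] (hkF : k ≤ F)
    (hFK : F ≤ K) (hF : ¬ p ∣ relDegree k F)
    (hK : ∃ e : ℕ, Module.finrank ℚ K = p ^ e * Module.finrank ℚ F)
    (hkE : k ≤ E) (hE : E ≤ E') (hEE : ∃ e : ℕ, Module.finrank ℚ E' = p ^ e * Module.finrank ℚ E)
    (hFE : F ≤ E') :
    ∃ g : Gal(Qb/ℚ), F.map g.toAlgHom ≤ E := by
  classical
  obtain ⟨e', he'⟩ := hK
  obtain ⟨e, he⟩ := hEE
  have fE : FiniteDimensional ℚ E := fd_of hE
  have fF : FiniteDimensional ℚ F := fd_of hFK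
  have nK : @Normal ℚ K _ _ (IntermediateField.algebra' K) := hnK
  set Γ : Subgroup Gal(Qb/ℚ) := k.fixingSubgroup with hΓ
  have hN : K.fixingSubgroup.Normal := by
    rw [← restrictNormalHom_ker K]
    infer_instance
  have hN' : (K.fixingSubgroup.subgroupOf Γ).Normal := inferInstance
  have hFΓ : F.fixingSubgroup ≤ Γ := fixingSubgroup_le hkF
  have hEΓ : E.fixingSubgroup ≤ Γ := fixingSubgroup_le hkE
  have hE'Γ : E'.fixingSubgroup ≤ Γ := (fixingSubgroup_le hE).trans hEΓ
  have hdeg : (F.fixingSubgroup.subgroupOf Γ).index = relDegree k F := by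
    have := relIndex_fix hkF (rel_eq hkF).symm
    rwa [Subgroup.relIndex] at this
  obtain ⟨γ, hγ⟩ := group_down p (K.fixingSubgroup.subgroupOf Γ) (F.fixingSubgroup.subgroupOf Γ)
    (E.fixingSubgroup.subgroupOf Γ) (E'.fixingSubgroup.subgroupOf Γ)
    (fun _ hx => fixingSubgroup_le hFK hx) (by rw [hdeg]; exact hF)
    (k' := e') (by
      rw [Subgroup.relIndex_subgroupOf hFΓ]
      exact relIndex_fix hFK he')
    (fun _ hx => fixingSubgroup_le hFE hx)
    (fun _ hx => fixingSubgroup_le hE hx)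
    (k := e) (by
      rw [Subgroup.relIndex_subgroupOf hEΓ]
      exact relIndex_fix hE he)
  refine ⟨(γ : Gal(Qb/ℚ))⁻¹, ?_⟩
  rintro _ ⟨x, hx', rfl⟩
  rw [← InfiniteGalois.fixedField_fixingSubgroup E, mem_fixedField_iff]
  intro a ha
  have h0 := hγ ⟨a, hEΓ ha⟩ ha
  have h1 := (IntermediateField.mem_fixingSubgroup_iff _ _).1 h0 x hx'
  show a ((γ : Gal(Qb/ℚ))⁻¹ x) = (γ : Gal(Qb/ℚ))⁻¹ x
  have h2 : (γ : Gal(Qb/ℚ)) (a ((γ : Gal(Qb/ℚ))⁻¹ x)) = x := h1
  have h3 : (γ : Gal(Qb/ℚ))⁻¹ ((γ : Gal(Qb/ℚ)) (a ((γ : Gal(Qb/ℚ))⁻¹ x))) =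
      a ((γ : Gal(Qb/ℚ))⁻¹ x) := (γ : Gal(Qb/ℚ)).symm_apply_apply _
  rw [← h3, h2]

end Pool.Agent.TH570.Mu
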